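import Pool.Agent.H147R3.C0Sum

/-!
# The `c₀`-sum of `C(βℕ × βℕ)` is complemented in `C(βℕ × βℕ)`

Sign matrices whose rows are all the sign vectors of length `n + 1` give operators `P n` of norm at
most one on `C(βℕ × βℕ)` which tend to `0` pointwise (by the orthogonality of the Rademacher
functions), together with right inverses which have disjoint supports.
-/

set_option autoImplicit false
set_option linter.unusedSectionVars false

open Filter Topology
open scoped ZeroAtInfty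

namespace Pool.Agent.H147R3.BetaSquare

/-! ### Rademacher sums -/

/-- The sign of a truth value. -/
def sg (t : Bool) : ℝ := if t then 1 else -1

theorem sg_mul_self (t : Bool) : sg t * sg t = 1 := by cases t <;> simp [sg]

theorem abs_sg (t : Bool) : |sg t| = 1 := by cases t <;> simp [sg]

theorem sg_not (t : Bool) : sg (!t) = - sg t := by cases t <;> simp [sg]

theorem orth {ι : Type*} [Fintype ι] [DecidableEq ι] {b c : ι} (h : b ≠ c) :
    ∑ a : ι → Bool, sg (a b) * sg (a c) = 0 := by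
  refine Finset.sum_involution (fun a _ => Function.update a b (!a b)) ?_ ?_ ?_ ?_
  · intro a _
    rw [Function.update_self, Function.update_of_ne h.symm, sg_not]
    ring
  · intro a _ _ h2
    have h3 := congrFun h2 b
    rw [Function.update_self] at h3
    cases h4 : a b <;> rw [h4] at h3 <;> simp at h3
  · intro a _
    exact Finset.mem_univ _
  · intro a _
    simp

theorem sum_sq {ι : Type*} [Fintype ι] [DecidableEq ι] (y : ι → ℝ) :
    ∑ a : ι → Bool, (∑ b, sg (a b) * y b) ^ 2 = 2 ^ Fintype.card ι * ∑ b, y b ^ 2 := by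
  have h1 : ∀ a : ι → Bool, (∑ b, sg (a b) * y b) ^ 2 =
      ∑ b, ∑ c, y b * y c * (sg (a b) * sg (a c)) := by
    intro a
    rw [sq, Finset.sum_mul_sum]
    refine Finset.sum_congr rfl fun b _ => Finset.sum_congr rfl fun c _ => by ring
  rw [Finset.sum_congr rfl fun a _ => h1 a, Finset.sum_comm, Finset.mul_sum]
  refine Finset.sum_congr rfl fun b _ => ?_
  rw [Finset.sum_comm, Finset.sum_eq_single b]
  · rw [← Finset.mul_sum]
    simp only [sg_mul_self]
    simp
    ring
  · intro c _ hc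
    rw [← Finset.mul_sum, orth hc.symm, mul_zero]
  · intro h
    exact absurd (Finset.mem_univ b) h

theorem rademacher (N : ℕ) (x : (Fin N → Bool) → ℝ) (y : Fin N → ℝ) {U V : ℝ} (hU : 0 ≤ U)
    (hV : 0 ≤ V) (hx : ∀ a, |x a| ≤ U) (hy : ∀ b, |y b| ≤ V) :
    |∑ a, ∑ b, sg (a b) * (x a * y b)| ≤ 2 ^ N * √N * (U * V) := by
  have h1 : ∑ a : Fin N → Bool, ∑ b, sg (a b) * (x a * y b) =
      ∑ a : Fin N → Bool, x a * ∑ b, sg (a b) * y b := by
    refine Finset.sum_congr rfl fun a _ => ?_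
    rw [Finset.mul_sum]
    exact Finset.sum_congr rfl fun b _ => by ring
  rw [h1]
  have h2 : (∑ a : Fin N → Bool, |∑ b, sg (a b) * y b|) ^ 2 ≤ (2 ^ N * √N * V) ^ 2 := by
    calc (∑ a : Fin N → Bool, |∑ b, sg (a b) * y b|) ^ 2
        ≤ (Finset.univ : Finset (Fin N → Bool)).card *
            ∑ a : Fin N → Bool, |∑ b, sg (a b) * y b| ^ 2 := sq_sum_le_card_mul_sum_sq
      _ = 2 ^ N * (2 ^ N * ∑ b, y b ^ 2) := by
          simp only [sq_abs]
          rw [sum_sq]
          simp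
      _ ≤ 2 ^ N * (2 ^ N * ∑ _b : Fin N, V ^ 2) := by
          have hsq : ∀ b, y b ^ 2 ≤ V ^ 2 := fun b => by
            rw [← sq_abs]; exact pow_le_pow_left₀ (abs_nonneg _) (hy b) 2
          have := Finset.sum_le_sum fun b (_ : b ∈ (Finset.univ : Finset (Fin N))) => hsq b
          gcongr
      _ = (2 ^ N * √N * V) ^ 2 := by
          rw [Finset.sum_const, Finset.card_univ, Fintype.card_fin, nsmul_eq_mul, mul_pow, mul_pow,
            Real.sq_sqrt (Nat.cast_nonneg N)]
          ring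
  have h3 : ∑ a : Fin N → Bool, |∑ b, sg (a b) * y b| ≤ 2 ^ N * √N * V :=
    abs_le_of_sq_le_sq' h2 (by positivity) |>.2
  calc |∑ a : Fin N → Bool, x a * ∑ b, sg (a b) * y b|
      ≤ ∑ a : Fin N → Bool, |x a * ∑ b, sg (a b) * y b| := Finset.abs_sum_le_sum_abs _ _
    _ ≤ ∑ a : Fin N → Bool, U * |∑ b, sg (a b) * y b| := by
        refine Finset.sum_le_sum fun a _ => ?_
        rw [abs_mul]
        exact mul_le_mul_of_nonneg_right (hx a) (abs_nonneg _)
    _ = U * ∑ a : Fin N → Bool, |∑ b, sg (a b) * y b| := by rw [Finset.mul_sum]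
    _ ≤ U * (2 ^ N * √N * V) := mul_le_mul_of_nonneg_left h3 hU
    _ = 2 ^ N * √N * (U * V) := by ring

/-! ### The index sets -/

/-- Row blocks. -/
abbrev RowB : Type := Σ n : ℕ, (Fin (n + 1) → Bool)

/-- Column blocks. -/
abbrev ColB : Type := Σ n : ℕ, Fin (n + 1)

instance : Nonempty RowB := ⟨⟨0, fun _ => true⟩⟩
instance : Nonempty ColB := ⟨⟨0, 0⟩⟩

theorem ex1 : Nonempty (ℕ ≃ RowB × ℕ) := nonempty_equiv_of_countable
theorem ex2 : Nonempty (ℕ ≃ ColB × ℕ) := nonempty_equiv_of_countable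

/-- A bijection. -/
noncomputable def e1 : ℕ ≃ RowB × ℕ := Classical.choice ex1
/-- A bijection. -/
noncomputable def e2 : ℕ ≃ ColB × ℕ := Classical.choice ex2

/-- The space `βℕ`. -/
abbrev B : Type := StoneCech ℕ

/-- The extension of a map `ℕ → ℕ` to `βℕ`. -/
noncomputable def ext (g : ℕ → ℕ) : C(B, B) :=
  ⟨stoneCechExtend (g := stoneCechUnit ∘ g) continuous_of_discreteTopology,
    continuous_stoneCechExtend _⟩

@[simp] theorem ext_unit (g : ℕ → ℕ) (i : ℕ) : ext g (stoneCechUnit i) = stoneCechUnit (g i) := by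
  show stoneCechExtend (g := stoneCechUnit ∘ g) continuous_of_discreteTopology
    (stoneCechUnit i) = _
  rw [stoneCechExtend_stoneCechUnit]
  rfl

open Classical in
/-- The extension of the indicator function of a set of integers to `βℕ`. -/
noncomputable def chi (s : Set ℕ) : C(B, ℝ) :=
  ⟨(fun t : Bool => if t then (1 : ℝ) else 0) ∘
    stoneCechExtend (g := fun k : ℕ => (decide (k ∈ s) : Bool)) continuous_of_discreteTopology,
    continuous_of_discreteTopology.comp (continuous_stoneCechExtend _)⟩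

open Classical in
theorem chi_unit (s : Set ℕ) (i : ℕ) : chi s (stoneCechUnit i) = if i ∈ s then 1 else 0 := by
  show (fun t : Bool => if t then (1 : ℝ) else 0) (stoneCechExtend
    (g := fun k : ℕ => (decide (k ∈ s) : Bool)) continuous_of_discreteTopology
    (stoneCechUnit i)) = _
  rw [stoneCechExtend_stoneCechUnit]
  simp

/-- Points of `ℕ × ℕ` are dense in `βℕ × βℕ`. -/
theorem dense : DenseRange fun kl : ℕ × ℕ => ((stoneCechUnit kl.1 : B), (stoneCechUnit kl.2 : B)) :=
  denseRange_stoneCechUnit.prodMap denseRange_stoneCechUnit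

theorem norm_le_of_dense {F : C(B × B, ℝ)} {C : ℝ} (hC : 0 ≤ C)
    (h : ∀ k l : ℕ, |F (stoneCechUnit k, stoneCechUnit l)| ≤ C) : ‖F‖ ≤ C := by
  rw [ContinuousMap.norm_le _ hC]
  intro x
  refine dense.induction_on (p := fun x => ‖F x‖ ≤ C) x ?_ fun kl => h kl.1 kl.2
  exact isClosed_le (by fun_prop) continuous_const

theorem eq_of_dense {F G : C(B × B, ℝ)}
    (h : ∀ k l : ℕ, F (stoneCechUnit k, stoneCechUnit l) = G (stoneCechUnit k, stoneCechUnit l)) :
    F = G := by
  ext x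
  refine dense.induction_on (p := fun x => F x = G x) x ?_ fun kl => h kl.1 kl.2
  exact isClosed_eq F.continuous G.continuous

/-! ### The operators -/

/-- Precomposition as a continuous linear operator. -/
noncomputable def pre (g : C(B × B, B × B)) : C(B × B, ℝ) →L[ℝ] C(B × B, ℝ) :=
  { toFun := fun F => F.comp g
    map_add' := fun _ _ => by ext x; rfl
    map_smul' := fun _ _ => by ext x; rfl
    cont := ContinuousMap.continuous_precomp g }

/-- The map of the block `(a, b)`. -/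
noncomputable def blk (n : ℕ) (a : Fin (n + 1) → Bool) (b : Fin (n + 1)) : C(B × B, B × B) :=
  (ext fun i => e1.symm (⟨n, a⟩, i)).prodMap (ext fun j => e2.symm (⟨n, b⟩, j))

/-- The normalising constant. -/
noncomputable def cst (n : ℕ) : ℝ := (((n : ℝ) + 1) * 2 ^ (n + 1))⁻¹

theorem cst_pos (n : ℕ) : 0 < cst n := by unfold cst; positivity

/-- The averaging operators. -/
noncomputable def P (n : ℕ) : C(B × B, ℝ) →L[ℝ] C(B × B, ℝ) :=
  cst n • ∑ a : Fin (n + 1) → Bool, ∑ b : Fin (n + 1), sg (a b) • pre (blk n a b)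

theorem P_apply (n : ℕ) (F : C(B × B, ℝ)) (p q : B) : P n F (p, q) =
    cst n * ∑ a : Fin (n + 1) → Bool, ∑ b : Fin (n + 1), sg (a b) *
      F (ext (fun i => e1.symm (⟨n, a⟩, i)) p, ext (fun j => e2.symm (⟨n, b⟩, j)) q) := by
  unfold P
  simp only [smul_apply, sum_apply,
    ContinuousMap.smul_apply, ContinuousMap.sum_apply, smul_eq_mul]
  rfl

theorem P_norm (n : ℕ) (F : C(B × B, ℝ)) : ‖P n F‖ ≤ ‖F‖ := by
  rw [ContinuousMap.norm_le _ (norm_nonneg F)]
  rintro ⟨p, q⟩
  rw [P_apply, Real.norm_eq_abs, abs_mul, abs_of_pos (cst_pos n)]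
  have h : |∑ a : Fin (n + 1) → Bool, ∑ b : Fin (n + 1), sg (a b) *
      F (ext (fun i => e1.symm (⟨n, a⟩, i)) p, ext (fun j => e2.symm (⟨n, b⟩, j)) q)| ≤
      ((n : ℝ) + 1) * 2 ^ (n + 1) * ‖F‖ := by
    calc _ ≤ ∑ a : Fin (n + 1) → Bool, ∑ b : Fin (n + 1), ‖F‖ := by
          refine (Finset.abs_sum_le_sum_abs _ _).trans (Finset.sum_le_sum fun a _ => ?_)
          refine (Finset.abs_sum_le_sum_abs _ _).trans (Finset.sum_le_sum fun b _ => ?_)
          rw [abs_mul, abs_sg, one_mul]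
          exact F.norm_coe_le_norm _
      _ = ((n : ℝ) + 1) * 2 ^ (n + 1) * ‖F‖ := by
          simp
          ring
  calc cst n * _ ≤ cst n * (((n : ℝ) + 1) * 2 ^ (n + 1) * ‖F‖) :=
        mul_le_mul_of_nonneg_left h (cst_pos n).le
    _ = ‖F‖ := by unfold cst; field_simp

/-- The tensor product of two functions. -/
noncomputable def tens (u v : C(B, ℝ)) : C(B × B, ℝ) :=
  ⟨fun x => u x.1 * v x.2, by fun_prop⟩

theorem P_tens (n : ℕ) (u v : C(B, ℝ)) : ‖P n (tens u v)‖ ≤ ‖u‖ * ‖v‖ * (√((n : ℝ) + 1))⁻¹ := by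
  rw [ContinuousMap.norm_le _ (by positivity)]
  rintro ⟨p, q⟩
  rw [P_apply, Real.norm_eq_abs, abs_mul, abs_of_pos (cst_pos n)]
  have h := rademacher (n + 1) (fun a => u (ext (fun i => e1.symm (⟨n, a⟩, i)) p))
    (fun b => v (ext (fun j => e2.symm (⟨n, b⟩, j)) q)) (norm_nonneg u) (norm_nonneg v)
    (fun a => u.norm_coe_le_norm _) (fun b => v.norm_coe_le_norm _)
  push_cast at h
  calc cst n * _ ≤ cst n * (2 ^ (n + 1) * √((n : ℝ) + 1) * (‖u‖ * ‖v‖)) :=
        mul_le_mul_of_nonneg_left h (cst_pos n).le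
    _ = ‖u‖ * ‖v‖ * (√((n : ℝ) + 1))⁻¹ := by
        unfold cst
        have h1 : (0 : ℝ) < (n : ℝ) + 1 := by positivity
        have h2 : √((n : ℝ) + 1) * √((n : ℝ) + 1) = (n : ℝ) + 1 := Real.mul_self_sqrt h1.le
        have h3 : 0 < √((n : ℝ) + 1) := Real.sqrt_pos.2 h1
        set s := √((n : ℝ) + 1) with hs
        rw [← h2]
        field_simp

theorem tendsto_tens (u v : C(B, ℝ)) : Tendsto (fun n => P n (tens u v)) atTop (𝓝 0) := by
  rw [tendsto_zero_iff_norm_tendsto_zero]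
  refine squeeze_zero (fun n => norm_nonneg _) (fun n => P_tens n u v) ?_
  have h1 : Tendsto (fun n : ℕ => √((n : ℝ) + 1)) atTop atTop :=
    Real.tendsto_sqrt_atTop.comp (tendsto_atTop_add_const_right _ _ tendsto_natCast_atTop_atTop)
  have h2 := (h1.inv_tendsto_atTop).const_mul (‖u‖ * ‖v‖)
  rw [mul_zero] at h2
  exact h2

/-- The elementary tensors as a multiplicative monoid. -/
noncomputable def tensMon : Submonoid C(B × B, ℝ) where
  carrier := {F | ∃ u v, F = tens u v}
  one_mem' := ⟨1, 1, by ext x; simp [tens]⟩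
  mul_mem' := by
    rintro _ _ ⟨u, v, rfl⟩ ⟨u', v', rfl⟩
    refine ⟨u * u', v * v', ?_⟩
    ext x
    simp only [tens, ContinuousMap.mul_apply, ContinuousMap.coe_mk]
    ring

/-- The functions on which the operators tend to zero. -/
noncomputable def null : Submodule ℝ C(B × B, ℝ) where
  carrier := {F | Tendsto (fun n => P n F) atTop (𝓝 0)}
  zero_mem' := by simp
  add_mem' := by
    intro F G hF hG
    have := hF.add hG
    simpa using this
  smul_mem' := by
    intro c F hF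
    have := hF.const_smul c
    simpa using this

theorem tendsto_all (F : C(B × B, ℝ)) : Tendsto (fun n => P n F) atTop (𝓝 0) := by
  let A : Subalgebra ℝ C(B × B, ℝ) := Algebra.adjoin ℝ (tensMon : Set C(B × B, ℝ))
  have hA : ∀ G ∈ A, G ∈ null := by
    intro G hG
    have h1 : G ∈ Subalgebra.toSubmodule A := hG
    rw [Algebra.adjoin_eq_span, Submonoid.closure_eq] at h1
    refine (Submodule.span_le.2 ?_ : _ ≤ null) h1
    rintro _ ⟨u, v, rfl⟩
    exact tendsto_tens u v
  have hB : ∀ {x y : B}, x ≠ y → ∃ f : C(B, ℝ), f x ≠ f y := by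
    intro x y hxy
    obtain ⟨f, h0, h1, -⟩ := exists_continuous_zero_one_of_isClosed (isClosed_singleton (x := x))
      (isClosed_singleton (x := y)) (Set.disjoint_singleton.2 hxy)
    refine ⟨f, ?_⟩
    rw [h0 rfl, h1 rfl]
    simp
  have hmem : ∀ u v, tens u v ∈ A := fun u v => Algebra.subset_adjoin ⟨u, v, rfl⟩
  have hsep : A.SeparatesPoints := by
    rintro ⟨p, q⟩ ⟨p', q'⟩ hne
    by_cases hp : p = p'
    · have hq : q ≠ q' := fun hq => hne (by rw [hp, hq])
      obtain ⟨f, hf⟩ := hB hq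
      refine ⟨_, ⟨tens 1 f, hmem _ _, rfl⟩, ?_⟩
      simpa [tens] using hf
    · obtain ⟨f, hf⟩ := hB hp
      refine ⟨_, ⟨tens f 1, hmem _ _, rfl⟩, ?_⟩
      simpa [tens] using hf
  rw [Metric.tendsto_atTop]
  intro ε hε
  obtain ⟨G, hG⟩ := ContinuousMap.exists_mem_subalgebra_near_continuousMap_of_separatesPoints A hsep
    F (ε / 2) (half_pos hε)
  obtain ⟨N, hN⟩ := Metric.tendsto_atTop.1 (hA G G.2) (ε / 2) (half_pos hε)
  refine ⟨N, fun n hn => ?_⟩
  have h1 := hN n hn
  rw [dist_zero_right] at h1 ⊢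
  calc ‖P n F‖ = ‖P n G - P n (G - F)‖ := by rw [map_sub]; congr 1; abel
    _ ≤ ‖P n G‖ + ‖P n (G - F)‖ := norm_sub_le _ _
    _ ≤ ‖P n G‖ + ‖(G : C(B × B, ℝ)) - F‖ := by gcongr; exact P_norm n _
    _ < ε / 2 + ε / 2 := add_lt_add h1 hG
    _ = ε := add_halves ε

/-! ### The right inverses -/

/-- The sets of the row blocks. -/
def rowSet (n : ℕ) (a : Fin (n + 1) → Bool) : Set ℕ := {k | (e1 k).1 = ⟨n, a⟩}

/-- The sets of the column blocks. -/
def colSet (n : ℕ) (b : Fin (n + 1)) : Set ℕ := {k | (e2 k).1 = ⟨n, b⟩}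

/-- The right inverse of `P n`. -/
noncomputable def R (n : ℕ) : C(B × B, ℝ) →ₗ[ℝ] C(B × B, ℝ) where
  toFun F := ∑ a : Fin (n + 1) → Bool, ∑ b : Fin (n + 1),
    (sg (a b) • tens (chi (rowSet n a)) (chi (colSet n b))) *
      F.comp ((ext fun k => (e1 k).2).prodMap (ext fun l => (e2 l).2))
  map_add' F G := by
    simp only [ContinuousMap.add_comp, mul_add, Finset.sum_add_distrib]
  map_smul' c F := by
    simp only [ContinuousMap.smul_comp, mul_smul_comm, Finset.smul_sum, RingHom.id_apply]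

open Classical in
theorem R_unit (n : ℕ) (F : C(B × B, ℝ)) (k l : ℕ) :
    R n F (stoneCechUnit k, stoneCechUnit l) =
      ∑ a : Fin (n + 1) → Bool, ∑ b : Fin (n + 1),
        (if (e1 k).1 = ⟨n, a⟩ ∧ (e2 l).1 = ⟨n, b⟩ then
          sg (a b) * F (stoneCechUnit (e1 k).2, stoneCechUnit (e2 l).2) else 0) := by
  show (∑ a : Fin (n + 1) → Bool, ∑ b : Fin (n + 1),
    (sg (a b) • tens (chi (rowSet n a)) (chi (colSet n b))) *
      F.comp ((ext fun k => (e1 k).2).prodMap (ext fun l => (e2 l).2)))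
      (stoneCechUnit k, stoneCechUnit l) = _
  simp only [ContinuousMap.sum_apply]
  refine Finset.sum_congr rfl fun a _ => Finset.sum_congr rfl fun b _ => ?_
  show sg (a b) * (chi (rowSet n a) (stoneCechUnit k) * chi (colSet n b) (stoneCechUnit l)) *
    F (ext (fun k => (e1 k).2) (stoneCechUnit k), ext (fun l => (e2 l).2) (stoneCechUnit l)) = _
  rw [chi_unit, chi_unit, ext_unit, ext_unit]
  simp only [rowSet, colSet, Set.mem_setOf_eq]
  by_cases h1 : (e1 k).1 = ⟨n, a⟩ <;> by_cases h2 : (e2 l).1 = ⟨n, b⟩ <;> simp [h1, h2]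

theorem R_unit_ne {n : ℕ} (F : C(B × B, ℝ)) {k : ℕ} (l : ℕ) (h : (e1 k).1.1 ≠ n) :
    R n F (stoneCechUnit k, stoneCechUnit l) = 0 := by
  classical
  rw [R_unit]
  refine Finset.sum_eq_zero fun a _ => Finset.sum_eq_zero fun b _ => ?_
  rw [if_neg]
  rintro ⟨h1, -⟩
  exact h (by rw [h1])

theorem R_unit_eq {n : ℕ} (F : C(B × B, ℝ)) {k l : ℕ} {a : Fin (n + 1) → Bool} {b : Fin (n + 1)}
    (h1 : (e1 k).1 = ⟨n, a⟩) (h2 : (e2 l).1 = ⟨n, b⟩) :
    R n F (stoneCechUnit k, stoneCechUnit l) =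
      sg (a b) * F (stoneCechUnit (e1 k).2, stoneCechUnit (e2 l).2) := by
  classical
  rw [R_unit, Finset.sum_eq_single a, Finset.sum_eq_single b]
  · rw [if_pos ⟨h1, h2⟩]
  · intro b' _ hb'
    rw [if_neg]
    rintro ⟨-, h⟩
    rw [h2] at h
    exact hb' (eq_of_heq (Sigma.mk.inj h).2).symm
  · intro h; exact absurd (Finset.mem_univ _) h
  · intro a' _ ha'
    refine Finset.sum_eq_zero fun b' _ => ?_
    rw [if_neg]
    rintro ⟨h, -⟩
    rw [h1] at h
    exact ha' (eq_of_heq (Sigma.mk.inj h).2).symm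
  · intro h; exact absurd (Finset.mem_univ _) h

theorem R_unit_le (n : ℕ) (F : C(B × B, ℝ)) (k l : ℕ) :
    |R n F (stoneCechUnit k, stoneCechUnit l)| ≤ ‖F‖ := by
  classical
  by_cases h1 : (e1 k).1.1 = n
  · by_cases h2 : (e2 l).1.1 = n
    · obtain ⟨m, a, ha⟩ : ∃ m a, (e1 k).1 = (⟨m, a⟩ : RowB) := ⟨_, _, rfl⟩
      obtain ⟨m', b, hb⟩ : ∃ m b, (e2 l).1 = (⟨m, b⟩ : ColB) := ⟨_, _, rfl⟩
      rw [ha] at h1
      rw [hb] at h2
      dsimp only at h1 h2
      subst h1
      subst h2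
      rw [R_unit_eq F ha hb, abs_mul, abs_sg, one_mul]
      exact F.norm_coe_le_norm _
    · rw [R_unit, Finset.sum_eq_zero, abs_zero]
      · exact norm_nonneg _
      · intro a _
        refine Finset.sum_eq_zero fun b _ => ?_
        rw [if_neg]
        rintro ⟨-, h⟩
        exact h2 (by rw [h])
  · rw [R_unit_ne F l h1, abs_zero]
    exact norm_nonneg _

/-- Finite sums of the right inverses have disjoint supports. -/
theorem sum_le (t : Finset ℕ) (z : ℕ → C(B × B, ℝ)) {C : ℝ} (hC : 0 ≤ C)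
    (h : ∀ n ∈ t, ‖z n‖ ≤ C) : ‖∑ n ∈ t, R n (z n)‖ ≤ C := by
  refine norm_le_of_dense hC fun k l => ?_
  rw [ContinuousMap.sum_apply]
  by_cases hk : (e1 k).1.1 ∈ t
  · rw [Finset.sum_eq_single (e1 k).1.1]
    · exact (R_unit_le _ _ k l).trans (h _ hk)
    · intro n _ hn
      exact R_unit_ne _ l hn.symm
    · intro h'; exact absurd hk h'
  · rw [Finset.sum_eq_zero, abs_zero]
    · exact hC
    · intro n hn
      refine R_unit_ne _ l fun h' => hk ?_
      rw [h']; exact hn

theorem P_R (m n : ℕ) (F : C(B × B, ℝ)) : P m (R n F) = if m = n then F else 0 := by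
  refine eq_of_dense fun i j => ?_
  rw [P_apply]
  simp only [ext_unit]
  have e1s : ∀ (a : Fin (m + 1) → Bool), e1 (e1.symm ((⟨m, a⟩ : RowB), i)) = (⟨m, a⟩, i) :=
    fun a => e1.apply_symm_apply _
  have e2s : ∀ (b : Fin (m + 1)), e2 (e2.symm ((⟨m, b⟩ : ColB), j)) = (⟨m, b⟩, j) :=
    fun b => e2.apply_symm_apply _
  split_ifs with h
  · subst h
    have h1 : ∀ (a : Fin (m + 1) → Bool) (b : Fin (m + 1)), sg (a b) *
        R m F (stoneCechUnit (e1.symm (⟨m, a⟩, i)), stoneCechUnit (e2.symm (⟨m, b⟩, j))) =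
          F (stoneCechUnit i, stoneCechUnit j) := by
      intro a b
      rw [R_unit_eq F (congrArg Prod.fst (e1s a)) (congrArg Prod.fst (e2s b)), e1s, e2s,
        ← mul_assoc, sg_mul_self, one_mul]
    simp only [h1]
    simp
    unfold cst
    field_simp
  · have h1 : ∀ (a : Fin (m + 1) → Bool) (b : Fin (m + 1)),
        R n F (stoneCechUnit (e1.symm (⟨m, a⟩, i)), stoneCechUnit (e2.symm (⟨m, b⟩, j))) = 0 := by
      intro a b
      refine R_unit_ne F _ ?_
      rw [e1s]
      exact h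
    simp only [h1]
    simp

theorem summ (z : C₀(ℕ, C(B × B, ℝ))) : Summable fun n => R n (z n) := by
  rw [summable_iff_vanishing_norm]
  intro ε hε
  obtain ⟨N, hN⟩ := Metric.tendsto_atTop.1 (C0Sum.tendsto_zero z) (ε / 2) (half_pos hε)
  refine ⟨Finset.range N, fun t ht => ?_⟩
  refine (sum_le t (fun n => z n) (half_pos hε).le fun n hn => ?_).trans_lt (half_lt_self hε)
  have hn' : N ≤ n := by
    by_contra hlt
    exact (Finset.disjoint_left.1 ht hn) (Finset.mem_range.2 (not_le.1 hlt))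
  have := hN n hn'
  rw [dist_zero_right] at this
  exact this.le

/-- The sum of the right inverses. -/
noncomputable def RR : C₀(ℕ, C(B × B, ℝ)) →L[ℝ] C(B × B, ℝ) :=
  let A : C₀(ℕ, C(B × B, ℝ)) →ₗ[ℝ] C(B × B, ℝ) :=
    { toFun := fun z => ∑' n, R n (z n)
      map_add' := fun z w => by
        rw [← (summ z).tsum_add (summ w)]
        exact tsum_congr fun n => by
          rw [ZeroAtInftyContinuousMap.add_apply, map_add]
      map_smul' := fun c z => by
        rw [RingHom.id_apply, ← (summ z).tsum_const_smul]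
        exact tsum_congr fun n => by
          rw [ZeroAtInftyContinuousMap.smul_apply, map_smul] }
  ⟨A, AddMonoidHomClass.continuous_of_bound A 1 fun z => by
    rw [one_mul]
    refine le_of_tendsto (summ z).hasSum.norm (Filter.Eventually.of_forall fun t => ?_)
    exact sum_le t (fun n => z n) (norm_nonneg z) fun n _ => C0Sum.norm_apply_le z n⟩

theorem RR_apply (z : C₀(ℕ, C(B × B, ℝ))) : RR z = ∑' n, R n (z n) := rfl

/-- The operator to the `c₀`-sum. -/
noncomputable def PP : C(B × B, ℝ) →L[ℝ] C₀(ℕ, C(B × B, ℝ)) :=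
  let A : C(B × B, ℝ) →ₗ[ℝ] C₀(ℕ, C(B × B, ℝ)) :=
    { toFun := fun F => C0Sum.mk (fun n => P n F) (tendsto_all F)
      map_add' := fun F G => by
        ext n : 1
        exact map_add (P n) F G
      map_smul' := fun c F => by
        ext n : 1
        exact map_smul (P n) c F }
  ⟨A, AddMonoidHomClass.continuous_of_bound A 1 fun F => by
    rw [one_mul]
    exact (C0Sum.norm_le (norm_nonneg F)).2 fun n => P_norm n F⟩

theorem PP_RR (z : C₀(ℕ, C(B × B, ℝ))) : PP (RR z) = z := by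
  ext m : 1
  show P m (RR z) = z m
  rw [RR_apply, (P m).map_tsum (summ z)]
  simp only [P_R]
  rw [tsum_eq_single m]
  · rw [if_pos rfl]
  · intro n hn
    rw [if_neg hn.symm]

/-- `C([0, ω] × βℕ × βℕ)` is isomorphic to `C(βℕ × βℕ)`. -/
theorem iso : Nonempty (C(OnePoint ℕ × StoneCech ℕ × StoneCech ℕ, ℝ) ≃L[ℝ]
    C(StoneCech ℕ × StoneCech ℕ, ℝ)) :=
  C0Sum.main (K := StoneCech ℕ × StoneCech ℕ) PP RR PP_RR

end Pool.Agent.H147R3.BetaSquare
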