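import Mathlib

/-!
# The decomposition method for spaces of continuous functions

For a compact space `K` put `X = C(K, ℝ)` and let `Z = C₀(ℕ, X)` be the `c₀`-sum of countably many
copies of `X`. If `Z` is a complemented subspace of `X` then `C(OnePoint ℕ × K, ℝ)` is isomorphic
to `X`.
-/

set_option autoImplicit false
set_option linter.unusedSectionVars false

open Filter Topology
open scoped ZeroAtInfty

namespace Pool.Agent.H147R3.C0Sum

theorem exists_equiv {E F : Type*} [NormedAddCommGroup E] [NormedSpace ℝ E] [CompleteSpace E]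
    [NormedAddCommGroup F] [NormedSpace ℝ F] [CompleteSpace F] (A : E →ₗ[ℝ] F) (C : ℝ)
    (hb : ∀ x, ‖A x‖ ≤ C * ‖x‖) (h1 : ∀ x, A x = 0 → x = 0) (h2 : ∀ y, ∃ x, A x = y) :
    Nonempty (E ≃L[ℝ] F) := by
  let A' : E →L[ℝ] F := A.mkContinuous C hb
  have k1 : A'.ker = ⊥ := LinearMap.ker_eq_bot'.2 h1
  have k2 : A'.range = ⊤ := LinearMap.range_eq_top.2 h2
  exact ⟨ContinuousLinearEquiv.ofBijective A' k1 k2⟩

section General

variable {X : Type*} [NormedAddCommGroup X] [NormedSpace ℝ X]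

theorem tendsto_zero (z : C₀(ℕ, X)) : Tendsto (fun n => z n) atTop (𝓝 0) := by
  have h := z.zero_at_infty'
  rwa [Filter.cocompact_eq_cofinite, Nat.cofinite_eq_atTop] at h

/-- A null sequence as an element of the `c₀`-sum. -/
def mk (f : ℕ → X) (hf : Tendsto f atTop (𝓝 0)) : C₀(ℕ, X) where
  toFun := f
  continuous_toFun := continuous_of_discreteTopology
  zero_at_infty' := by rwa [Filter.cocompact_eq_cofinite, Nat.cofinite_eq_atTop]

@[simp] theorem mk_apply (f : ℕ → X) (hf : Tendsto f atTop (𝓝 0)) (n : ℕ) : mk f hf n = f n := rfl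

theorem norm_le {z : C₀(ℕ, X)} {C : ℝ} (hC : 0 ≤ C) : ‖z‖ ≤ C ↔ ∀ n, ‖z n‖ ≤ C := by
  rw [← ZeroAtInftyContinuousMap.norm_toBCF_eq_norm, BoundedContinuousFunction.norm_le hC]
  rfl

theorem norm_apply_le (z : C₀(ℕ, X)) (n : ℕ) : ‖z n‖ ≤ ‖z‖ := (norm_le (norm_nonneg z)).1 le_rfl n

/-- Composition with an injective map of indices. -/
noncomputable def reindex (j : ℕ → ℕ) (hj : Function.Injective j) : C₀(ℕ, X) →L[ℝ] C₀(ℕ, X) :=
  LinearMap.mkContinuous
    { toFun := fun z => mk (fun n => z (j n)) ((tendsto_zero z).comp hj.nat_tendsto_atTop)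
      map_add' := fun _ _ => rfl
      map_smul' := fun _ _ => rfl } 1 fun z => by
    rw [one_mul]
    exact (norm_le (norm_nonneg z)).2 fun n => norm_apply_le z (j n)

@[simp] theorem reindex_apply (j : ℕ → ℕ) (hj : Function.Injective j) (z : C₀(ℕ, X)) (n : ℕ) :
    reindex j hj z n = z (j n) := rfl

theorem inj_even : Function.Injective fun n : ℕ => 2 * n := fun a b h => by
  simpa using h

theorem inj_odd : Function.Injective fun n : ℕ => 2 * n + 1 := fun a b h => by
  simpa using h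

variable [CompleteSpace X]

/-- The `c₀`-sum is isomorphic to its square. -/
theorem square : Nonempty (C₀(ℕ, X) ≃L[ℝ] C₀(ℕ, X) × C₀(ℕ, X)) := by
  let A : C₀(ℕ, X) →L[ℝ] C₀(ℕ, X) × C₀(ℕ, X) :=
    (reindex (fun n => 2 * n) inj_even).prod (reindex (fun n => 2 * n + 1) inj_odd)
  refine ⟨ContinuousLinearEquiv.ofBijective A ?_ ?_⟩
  · rw [LinearMap.ker_eq_bot']
    intro z hz
    have h1 : reindex (fun n => 2 * n) inj_even z = 0 := congrArg Prod.fst hz
    have h2 : reindex (fun n => 2 * n + 1) inj_odd z = 0 := congrArg Prod.snd hz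
    ext n
    rcases Nat.even_or_odd' n with ⟨k, hk | hk⟩
    · have := DFunLike.congr_fun h1 k
      rw [hk]; exact this
    · have := DFunLike.congr_fun h2 k
      rw [hk]; exact this
  · rw [LinearMap.range_eq_top]
    rintro ⟨z, w⟩
    have ht : Tendsto (fun n : ℕ => if Even n then z (n / 2) else w (n / 2)) atTop (𝓝 0) := by
      rw [Metric.tendsto_atTop]
      intro ε hε
      obtain ⟨N1, h1⟩ := Metric.tendsto_atTop.1 (tendsto_zero z) ε hε
      obtain ⟨N2, h2⟩ := Metric.tendsto_atTop.1 (tendsto_zero w) ε hε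
      refine ⟨2 * (max N1 N2) + 2, fun n hn => ?_⟩
      have hn2 : max N1 N2 ≤ n / 2 := by omega
      split_ifs
      · exact h1 _ (le_trans (le_max_left _ _) hn2)
      · exact h2 _ (le_trans (le_max_right _ _) hn2)
    refine ⟨mk _ ht, ?_⟩
    refine Prod.ext ?_ ?_
    · ext n
      show (if Even (2 * n) then z (2 * n / 2) else w (2 * n / 2)) = z n
      rw [if_pos (even_two_mul n)]
      congr 1
      omega
    · ext n
      show (if Even (2 * n + 1) then z ((2 * n + 1) / 2) else w ((2 * n + 1) / 2)) = w n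
      rw [if_neg (by simp)]
      congr 1
      omega

end General

section Compact

variable {K : Type*} [TopologicalSpace K] [CompactSpace K] [T2Space K]

/-- Slices of a continuous function on `OnePoint ℕ × K`. -/
noncomputable def slice (F : C(OnePoint ℕ × K, ℝ)) (a : OnePoint ℕ) : C(K, ℝ) :=
  ⟨fun k => F (a, k), by fun_prop⟩

theorem slice_tendsto (F : C(OnePoint ℕ × K, ℝ)) :
    Tendsto (fun n : ℕ => slice F (n : OnePoint ℕ)) atTop (𝓝 (slice F OnePoint.infty)) := by
  have h : Continuous fun a : OnePoint ℕ => slice F a := F.curry.continuous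
  exact (OnePoint.continuous_iff_from_nat _).1 h

/-- The isomorphism between `C(OnePoint ℕ × K)` and the sum of the `c₀`-sum and `C(K)`. -/
theorem onePoint : Nonempty (C(OnePoint ℕ × K, ℝ) ≃L[ℝ] C₀(ℕ, C(K, ℝ)) × C(K, ℝ)) := by
  let A : C(OnePoint ℕ × K, ℝ) →ₗ[ℝ] C₀(ℕ, C(K, ℝ)) × C(K, ℝ) :=
    { toFun := fun F => (mk (fun n => slice F n - slice F OnePoint.infty) (by
        have h := (slice_tendsto F).sub_const (slice F OnePoint.infty)
        rwa [sub_self] at h), slice F OnePoint.infty)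
      map_add' := fun F G => by
        refine Prod.ext ?_ ?_
        · ext n k
          show F (n, k) + G (n, k) - (F (OnePoint.infty, k) + G (OnePoint.infty, k)) =
            F (n, k) - F (OnePoint.infty, k) + (G (n, k) - G (OnePoint.infty, k))
          ring
        · ext k; rfl
      map_smul' := fun c F => by
        refine Prod.ext ?_ ?_
        · ext n k
          show c * F (n, k) - c * F (OnePoint.infty, k) = c * (F (n, k) - F (OnePoint.infty, k))
          ring
        · ext k; rfl }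
  have hsl : ∀ (F : C(OnePoint ℕ × K, ℝ)) a, ‖slice F a‖ ≤ ‖F‖ := fun F a =>
    (ContinuousMap.norm_le _ (norm_nonneg F)).2 fun k => F.norm_coe_le_norm (a, k)
  have hb : ∀ F, ‖A F‖ ≤ 2 * ‖F‖ := fun F => by
      rw [Prod.norm_def]
      refine max_le ?_ ?_
      · refine (norm_le (by positivity)).2 fun n => ?_
        calc ‖slice F n - slice F OnePoint.infty‖ ≤ ‖slice F n‖ + ‖slice F OnePoint.infty‖ :=
              norm_sub_le _ _
          _ ≤ ‖F‖ + ‖F‖ := add_le_add (hsl _ _) (hsl _ _)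
          _ = 2 * ‖F‖ := by ring
      · calc ‖slice F OnePoint.infty‖ ≤ ‖F‖ := hsl _ _
          _ ≤ 2 * ‖F‖ := by linarith [norm_nonneg F]
  have h1 : ∀ F, A F = 0 → F = 0 := by
    intro F hF
    have h2 : slice F OnePoint.infty = 0 := congrArg Prod.snd hF
    have h1 := congrArg Prod.fst hF
    ext ⟨a, k⟩
    have hinf : F (OnePoint.infty, k) = 0 := DFunLike.congr_fun h2 k
    induction a using OnePoint.rec with
    | infty => exact hinf
    | coe n =>
      have h3 := DFunLike.congr_fun (DFunLike.congr_fun h1 n) k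
      have h4 : F (n, k) - F (OnePoint.infty, k) = 0 := h3
      rw [hinf, sub_zero] at h4
      exact h4
  have h2 : ∀ y, ∃ F, A F = y := by
    rintro ⟨z, x⟩
    let G : C(OnePoint ℕ, C(K, ℝ)) := OnePoint.continuousMapMkNat (fun n => z n + x) x (by
      have h := (tendsto_zero z).add_const x
      rwa [zero_add] at h)
    have hGi : G OnePoint.infty = x := rfl
    have hGn : ∀ n : ℕ, G (n : OnePoint ℕ) = z n + x := fun n => rfl
    refine ⟨G.uncurry, ?_⟩
    refine Prod.ext ?_ ?_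
    · ext n k
      show G (n : OnePoint ℕ) k - G OnePoint.infty k = z n k
      rw [hGi, hGn, ContinuousMap.add_apply, add_sub_cancel_right]
    · ext k
      show G OnePoint.infty k = x k
      rw [hGi]
  exact exists_equiv (E := C(OnePoint ℕ × K, ℝ)) (F := C₀(ℕ, C(K, ℝ)) × C(K, ℝ)) A 2 hb h1 h2

/-- If the `c₀`-sum of copies of `C(K)` is complemented in `C(K)`, then
`C(OnePoint ℕ × K) ≃ C(K)`. -/
theorem main (P : C(K, ℝ) →L[ℝ] C₀(ℕ, C(K, ℝ))) (R : C₀(ℕ, C(K, ℝ)) →L[ℝ] C(K, ℝ))
    (h : ∀ z, P (R z) = z) : Nonempty (C(OnePoint ℕ × K, ℝ) ≃L[ℝ] C(K, ℝ)) := by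
  obtain ⟨e1⟩ := onePoint (K := K)
  obtain ⟨e2⟩ := square (X := C(K, ℝ))
  let e3 : C(K, ℝ) ≃L[ℝ] C₀(ℕ, C(K, ℝ)) × P.ker := ContinuousLinearEquiv.equivOfRightInverse P R h
  -- `X ≃ Z × V ≃ (Z × Z) × V ≃ Z × (Z × V) ≃ Z × X ≃ W`
  have e4 : C(K, ℝ) ≃L[ℝ] C₀(ℕ, C(K, ℝ)) × C(K, ℝ) :=
    e3.trans <| (e2.prodCongr (ContinuousLinearEquiv.refl ℝ _)).trans <|
      (ContinuousLinearEquiv.prodAssoc ℝ _ _ _).trans <|
        (ContinuousLinearEquiv.refl ℝ _).prodCongr e3.symm
  exact ⟨e1.trans e4.symm⟩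

end Compact

end Pool.Agent.H147R3.C0Sum
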